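import Pool.Agent.Helper35.PI.St4

/-!
# Project PI, module DFL: at each time the immersion is proper (literal class)
Adapted from the module DF of Helper39.
-/

set_option autoImplicit false

namespace Helper85.PI

open Helper35.PI
open scoped ContDiff Manifold Topology ENNReal
open MeasureTheory Set Filter

/-- the Hausdorff measure is a Haar measure -/
private theorem haar_DFL (n : ℕ) : (μH[(n : ℝ)] : Measure (EE n)).IsAddHaarMeasure := by
  have h := MeasureTheory.isAddHaarMeasure_hausdorffMeasure (E := EE n)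
  have e : ((Module.finrank ℝ (EE n) : ℕ) : ℝ) = (n : ℝ) := by
    rw [finrank_euclideanSpace_fin]
  rwa [e] at h

/-- disjoint sets meet a fibre in different points -/
private theorem card_DFL {M X : Type} (f : M → X) (s : Finset M) (C : M → Set M)
    (hd : ∀ p ∈ s, ∀ q ∈ s, p ≠ q → Disjoint (C p) (C q)) (x : X) :
    ∑ p ∈ s, (f '' (C p)).indicator (fun _ => (1 : ℝ≥0∞)) x ≤ ((f ⁻¹' {x}).encard : ℝ≥0∞) := by
  classical
  have h1 : ∑ p ∈ s, (f '' (C p)).indicator (fun _ => (1 : ℝ≥0∞)) x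
      = (((s.filter (fun p => x ∈ f '' C p)).card : ℕ) : ℝ≥0∞) := by
    simp only [Set.indicator_apply]
    rw [Finset.sum_ite]
    simp
  rw [h1]
  have hch : ∀ p, ∃ q, x ∈ f '' C p → (q ∈ C p ∧ f q = x) := by
    intro p
    by_cases h : x ∈ f '' C p
    · obtain ⟨q, hq, hx⟩ := h
      exact ⟨q, fun _ => ⟨hq, hx⟩⟩
    · exact ⟨p, fun h' => absurd h' h⟩
  choose g hg using hch
  set u := s.filter (fun p => x ∈ f '' C p) with hu
  have hinj : Set.InjOn g (u : Set M) := by
    intro p hp q hq hpq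
    have hp' := Finset.mem_filter.1 (Finset.mem_coe.1 hp)
    have hq' := Finset.mem_filter.1 (Finset.mem_coe.1 hq)
    by_contra hne
    have hdis := hd p hp'.1 q hq'.1 hne
    have m1 := (hg p hp'.2).1
    have m2 := (hg q hq'.2).1
    rw [← hpq] at m2
    exact Set.disjoint_left.1 hdis m1 m2
  have hsub : ((u.image g : Finset M) : Set M) ⊆ f ⁻¹' {x} := by
    intro y hy
    obtain ⟨p, hp, rfl⟩ := Finset.mem_image.1 (Finset.mem_coe.1 hy)
    have hp' := Finset.mem_filter.1 hp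
    exact (hg p hp'.2).2
  have h2 := Set.encard_le_encard hsub
  rw [Set.encard_coe_eq_coe_finsetCard, Finset.card_image_of_injOn hinj] at h2
  have h3 := ENat.toENNReal_le.2 h2
  simpa using h3

/-- the packing inequality -/
private theorem pack_DFL {M : Type} {N : ℕ} (μ : Measure (EE N)) (f : M → EE N) (s : Finset M)
    (C : M → Set M) (B : Set (EE N)) (a : ℝ≥0∞)
    (hd : ∀ p ∈ s, ∀ q ∈ s, p ≠ q → Disjoint (C p) (C q))
    (hm : ∀ p ∈ s, MeasurableSet (f '' C p)) (hB : ∀ p ∈ s, f '' C p ⊆ B)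
    (ha : ∀ p ∈ s, a ≤ μ (f '' C p)) :
    (s.card : ℝ≥0∞) * a ≤ ∫⁻ x in B, ((f ⁻¹' {x}).encard : ℝ≥0∞) ∂μ := by
  calc (s.card : ℝ≥0∞) * a = ∑ _p ∈ s, a := by rw [Finset.sum_const, nsmul_eq_mul]
    _ ≤ ∑ p ∈ s, μ (f '' C p) := Finset.sum_le_sum ha
    _ = ∑ p ∈ s, ∫⁻ x in B, (f '' C p).indicator (fun _ => (1 : ℝ≥0∞)) x ∂μ := by
        refine Finset.sum_congr rfl fun p hp => ?_
        rw [lintegral_indicator_const (hm p hp), one_mul, Measure.restrict_apply (hm p hp),
          inter_eq_left.2 (hB p hp)]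
    _ = ∫⁻ x in B, ∑ p ∈ s, (f '' C p).indicator (fun _ => (1 : ℝ≥0∞)) x ∂μ := by
        rw [lintegral_finsetSum s (fun p hp => measurable_const.indicator (hm p hp))]
    _ ≤ ∫⁻ x in B, ((f ⁻¹' {x}).encard : ℝ≥0∞) ∂μ := lintegral_mono fun x => card_DFL f s C hd x

/-- a maximal finite family, when the cardinality is bounded -/
private theorem max_DFL {M : Type} (V : Finset M → Prop) (h0 : V ∅) (m : ℕ)
    (hb : ∀ s, V s → s.card ≤ m) : ∃ s, V s ∧ ∀ s', V s' → s'.card ≤ s.card := by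
  classical
  obtain ⟨s, hs, hc⟩ := Nat.findGreatest_spec (P := fun k => ∃ s, V s ∧ s.card = k) (n := m)
    (Nat.zero_le m) ⟨∅, h0, by simp⟩
  refine ⟨s, hs, fun s' hs' => ?_⟩
  rw [hc]
  exact Nat.le_findGreatest (hb s' hs') ⟨s', hs', rfl⟩

theorem hDFL (hDC : StDC) (hDA : StDA) (hI4 : StI4) : StDFL := by
  intro n N hn M _ _ _ _ F hF t R ht
  classical
  rcases lt_or_ge R 0 with hR | hR
  · have : {q : M | ‖F q t‖ ≤ R} = ∅ := by
      ext q
      simp only [Set.mem_ofPred_eq, mem_empty_iff_false, iff_false, not_le]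
      exact hR.trans_le (norm_nonneg _)
    rw [this]
    exact isCompact_empty
  -- continuity
  have hcont : Continuous fun q : M => F q t := by
    have h := (hI4 n N M F hF.mcf).1
    have h2 : ContinuousOn (fun q : M => ((q, t) : M × ℝ)) univ :=
      (continuous_id.prodMk continuous_const).continuousOn
    have h3 := h.comp h2 (fun q _ => ⟨mem_univ _, ht⟩)
    exact continuousOn_univ.1 h3
  -- curvature bound
  obtain ⟨C, k, hC⟩ := hF.growth t ht
  set B : ℝ := |C| * (2 + R) ^ |k| with hBdef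
  have hB0 : 0 ≤ B := mul_nonneg (abs_nonneg _) (Real.rpow_nonneg (by linarith) _)
  set Λ : ℝ := B + 1 with hΛ
  have hΛ0 : 0 < Λ := by linarith
  have hAA : ∀ q : M, ‖F q t‖ ≤ R + 1 → AA (n := n) F q t ≤ Λ ^ 2 := by
    intro q hq
    have h1 := hC q
    have hx : (1 : ℝ) ≤ 1 + ‖F q t‖ := by linarith [norm_nonneg (F q t)]
    have h2 : (1 + ‖F q t‖) ^ k ≤ (2 + R) ^ |k| :=
      (Real.rpow_le_rpow_of_exponent_le hx (le_abs_self k)).trans
        (Real.rpow_le_rpow (by linarith) (by linarith) (abs_nonneg k))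
    have h3 : C * (1 + ‖F q t‖) ^ k ≤ B := by
      calc C * (1 + ‖F q t‖) ^ k ≤ |C| * (1 + ‖F q t‖) ^ k :=
            mul_le_mul_of_nonneg_right (le_abs_self C) (Real.rpow_nonneg (by linarith) _)
        _ ≤ B := mul_le_mul_of_nonneg_left h2 (abs_nonneg C)
    nlinarith
  set ρ : ℝ := min (1 / 8) (1 / (16 * Λ)) with hρ
  have hρ0 : 0 < ρ := lt_min (by norm_num) (by positivity)
  have hρ8 : ρ ≤ 1 / 8 := min_le_left _ _
  have hρΛ : ρ * Λ ≤ 1 / 16 := by
    have : ρ ≤ 1 / (16 * Λ) := min_le_right _ _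
    calc ρ * Λ ≤ 1 / (16 * Λ) * Λ := mul_le_mul_of_nonneg_right this hΛ0.le
      _ = 1 / 16 := by field_simp
  set D : ℝ → M → Set M := fun r p => connectedComponentIn {q : M | ‖F q t - F p t‖ ≤ r} p with hD
  have hDsub : ∀ r p, D r p ⊆ {q : M | ‖F q t - F p t‖ ≤ r} := fun r p => connectedComponentIn_subset _ _
  have hDmem : ∀ r p, 0 ≤ r → p ∈ D r p := by
    intro r p hr
    exact mem_connectedComponentIn (by simpa using hr)
  have hnear : ∀ p : M, ‖F p t‖ ≤ R → ∀ r : ℝ, r ≤ 1 / 8 → ∀ q : M, ‖F q t - F p t‖ ≤ 4 * r →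
      ‖F q t‖ ≤ R + 1 := by
    intro p hp r hr q hq
    have : ‖F q t‖ ≤ ‖F q t - F p t‖ + ‖F p t‖ := by
      have := norm_add_le (F q t - F p t) (F p t)
      rwa [sub_add_cancel] at this
    linarith
  have hcomp : ∀ p : M, ‖F p t‖ ≤ R → IsCompact (D ρ p) := fun p hp =>
    (hDC n N hn M F hF.mcf t Λ ρ p ht (hF.complete t ht) hΛ0 hρ0 hρΛ
      (fun q hq => hAA q (hnear p hp ρ hρ8 q hq))).1
  have hρ4 : ρ / 4 * Λ ≤ 1 / 16 := by
    have : 0 < ρ * Λ := by positivity
    linarith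
  have hsmall := fun (p : M) (hp : ‖F p t‖ ≤ R) =>
    hDC n N hn M F hF.mcf t Λ (ρ / 4) p ht (hF.complete t ht) hΛ0 (by positivity) hρ4
      (fun q hq => hAA q (hnear p hp (ρ / 4) (by linarith) q hq))
  -- the measure of the fibres
  obtain ⟨E, hE, hEb⟩ := hF.entropy
  have hI : ∫⁻ x in Metric.closedBall (0 : EE N) (R + 1),
      (((fun q => F q t) ⁻¹' {x}).encard : ℝ≥0∞) ∂μH[(n : ℝ)] < ⊤ :=
    hDA n N M F t (R + 1) E hE (fun x₀ lam hl => hEb t ht x₀ lam hl)
  set I := ∫⁻ x in Metric.closedBall (0 : EE N) (R + 1),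
      (((fun q => F q t) ⁻¹' {x}).encard : ℝ≥0∞) ∂μH[(n : ℝ)] with hIdef
  have := haar_DFL n
  set a₀ : ℝ≥0∞ := μH[(n : ℝ)] (Metric.closedBall (0 : EE n) (ρ / 4 / 2)) with ha₀
  have ha0 : a₀ ≠ 0 := (Metric.measure_closedBall_pos _ _ (by positivity)).ne'
  have hat : a₀ ≠ ⊤ := (isCompact_closedBall _ _).measure_lt_top.ne
  -- valid families
  let V : Finset M → Prop := fun s => (∀ p ∈ s, ‖F p t‖ ≤ R) ∧
    ∀ p ∈ s, ∀ q ∈ s, p ≠ q → Disjoint (D (ρ / 4) p) (D (ρ / 4) q)
  have hV0 : V ∅ := ⟨by simp, by simp⟩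
  have hVb : ∀ s, V s → (s.card : ℝ≥0∞) * a₀ ≤ I := by
    intro s hs
    refine pack_DFL (μH[(n : ℝ)]) (fun q => F q t) s (D (ρ / 4)) _ a₀ hs.2 ?_ ?_ ?_
    · intro p hp
      exact ((hsmall p (hs.1 p hp)).1.image hcont).isClosed.measurableSet
    · rintro p hp _ ⟨q, hq, rfl⟩
      rw [mem_closedBall_zero_iff]
      refine hnear p (hs.1 p hp) (ρ / 4) (by linarith) q ?_
      have := hDsub _ _ hq
      simp only [Set.mem_ofPred_eq] at this
      linarith
    · intro p hp
      exact (hsmall p (hs.1 p hp)).2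
  obtain ⟨m, hm⟩ := ENNReal.exists_nat_gt (ENNReal.div_lt_top hI.ne ha0).ne
  have hVm : ∀ s, V s → s.card ≤ m := by
    intro s hs
    have h1 : (s.card : ℝ≥0∞) ≤ I / a₀ :=
      (ENNReal.le_div_iff_mul_le (Or.inl ha0) (Or.inl hat)).2 (hVb s hs)
    have h2 := h1.trans_lt hm
    exact_mod_cast h2.le
  obtain ⟨s, hs, hmax⟩ := max_DFL V hV0 m hVm
  -- covering
  have hcov : {q : M | ‖F q t‖ ≤ R} ⊆ ⋃ p ∈ s, D ρ p := by
    intro q hq
    simp only [Set.mem_ofPred_eq] at hq
    have hex : ∃ p ∈ s, ¬ Disjoint (D (ρ / 4) p) (D (ρ / 4) q) := by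
      by_contra hno
      push Not at hno
      have hqs : q ∉ s := by
        intro hqs
        have := hno q hqs
        exact Set.disjoint_left.1 this (hDmem _ _ (by positivity)) (hDmem _ _ (by positivity))
      have hV' : V (insert q s) := by
        refine ⟨?_, ?_⟩
        · intro p hp
          rcases Finset.mem_insert.1 hp with rfl | hp
          · exact hq
          · exact hs.1 p hp
        · intro p hp p' hp' hne
          rcases Finset.mem_insert.1 hp with h1 | h1
          · rcases Finset.mem_insert.1 hp' with h2 | h2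
            · exact absurd (h1.trans h2.symm) hne
            · rw [h1]
              exact (hno p' h2).symm
          · rcases Finset.mem_insert.1 hp' with h2 | h2
            · rw [h2]
              exact hno p h1
            · exact hs.2 p h1 p' h2 hne
      have := hmax _ hV'
      rw [Finset.card_insert_of_notMem hqs] at this
      omega
    obtain ⟨p, hp, hnd⟩ := hex
    obtain ⟨z, hz1, hz2⟩ := Set.not_disjoint_iff.1 hnd
    refine mem_iUnion₂.2 ⟨p, hp, ?_⟩
    have hU : IsPreconnected (D (ρ / 4) p ∪ D (ρ / 4) q) :=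
      IsPreconnected.union z hz1 hz2 isPreconnected_connectedComponentIn isPreconnected_connectedComponentIn
    have hsub : D (ρ / 4) p ∪ D (ρ / 4) q ⊆ {y : M | ‖F y t - F p t‖ ≤ ρ} := by
      have k1 : ‖F z t - F p t‖ ≤ ρ / 4 := hDsub _ _ hz1
      have k2 : ‖F z t - F q t‖ ≤ ρ / 4 := hDsub _ _ hz2
      rintro y (hy | hy)
      · have : ‖F y t - F p t‖ ≤ ρ / 4 := hDsub _ _ hy
        simp only [Set.mem_ofPred_eq]
        linarith
      · have k3 : ‖F y t - F q t‖ ≤ ρ / 4 := hDsub _ _ hy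
        simp only [Set.mem_ofPred_eq]
        have e : F y t - F p t = (F y t - F q t) - (F z t - F q t) + (F z t - F p t) := by abel
        rw [e]
        have a1 := norm_add_le ((F y t - F q t) - (F z t - F q t)) (F z t - F p t)
        have a2 := norm_sub_le (F y t - F q t) (F z t - F q t)
        linarith
    exact hU.subset_connectedComponentIn (Or.inl (hDmem _ _ (by positivity))) hsub
      (Or.inr (hDmem _ _ (by positivity)))
  refine IsCompact.of_isClosed_subset (s.isCompact_biUnion fun p hp => hcomp p (hs.1 p hp)) ?_ hcov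
  exact isClosed_le hcont.norm continuous_const

end Helper85.PI
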